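import Pool.Agent.Q148.UP.Slopes

/-!
# Ordinary reduction of smooth projective varieties: one set of prime numbers
-/

set_option autoImplicit false

open Filter Topology

namespace Pool.Agent.Q148.UP

/-- Ordinary reduction. `V` is the commutative monoid of isomorphism classes of geometrically connected
smooth projective varieties over `ℚ` (with the product), `W` the set of isomorphism classes of pairs (number
field `K`, geometrically connected smooth projective variety over `K`), `G` the set of all smooth
projective models `X_A → Spec A` as in the question (for all algebraically closed fields of characteristic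
zero). -/
structure BKData (V W G : Type) where
  /-- the reduction of `X` over `ℚ` at `p` is ordinary -/
  ordV : Nat.Primes → V → Prop
  /-- the places above `p` of the field of definition -/
  place : W → Nat.Primes → Type
  /-- the reduction of `Y` at the place is ordinary -/
  ordW : ∀ Y p, place Y p → Prop
  /-- Weil restriction from `K` to `ℚ` -/
  weil : W → V
  /-- a variety over the number field `ℚ` -/
  incl : V → W
  /-- the space `Spec A` -/
  spec : G → Type
  /-- its Zariski topology -/
  top : ∀ g, TopologicalSpace (spec g)
  /-- the closed points with ordinary fibre -/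
  ord : ∀ g, Set (spec g)
  /-- the points of `Spec A` of characteristic zero whose residue field is a number field -/
  pts : ∀ g, Set (spec g)
  /-- the fibre at such a point -/
  fib : ∀ g, spec g → W
  /-- a model of `Y` over a ring of integers with finitely many primes inverted -/
  model : W → G

attribute [instance] BKData.top

/-- Infinitely many places of ordinary reduction. -/
def InfW {V W G : Type} (D : BKData V W G) (Y : W) : Prop :=
  {x : Σ p : Nat.Primes, D.place Y p | D.ordW Y x.1 x.2}.Infinite

/-- The standard properties:

* a product is ordinary if and only if the factors are (Illusie), a Weil restriction if and only if `Y` is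
  ordinary at all places above `p` (for all but finitely many `p`);
* `dense_pts`: the points whose residue fields are number fields are dense in `Spec A`;
* `closure`: if `Y`, the fibre at such a point `x`, has infinitely many places of ordinary reduction, then
  `x` is in the closure of the set of the closed points with ordinary fibre (they are closed points of the
  closure of `x`, an open part of the spectrum of an order in the number field);
* `model`: a set of closed points of the spectrum of a ring of `S`-integers is dense only if it is
  infinite. -/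
structure IsBK {V W G : Type} [CommMonoid V] (D : BKData V W G) : Prop where
  mul : ∀ X Y, ∀ᶠ p in cofinite, (D.ordV p (X * Y) ↔ D.ordV p X ∧ D.ordV p Y)
  weil : ∀ Y, ∀ᶠ p in cofinite, (D.ordV p (D.weil Y) ↔ ∀ P, D.ordW Y p P)
  nonempty : ∀ Y p, Nonempty (D.place Y p)
  incl_place : ∀ X p, Subsingleton (D.place (D.incl X) p)
  incl_ord : ∀ X p P, D.ordW (D.incl X) p P ↔ D.ordV p X
  dense_pts : ∀ g, Dense (D.pts g)
  closure : ∀ g, ∀ x ∈ D.pts g, InfW D (D.fib g x) → x ∈ closure (D.ord g)
  model : ∀ Y, Dense (D.ord (D.model Y)) → InfW D Y

variable {V W G : Type} [CommMonoid V] {D : BKData V W G}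

lemma bk_prod (h : IsBK D) {ι : Type} (s : Finset ι) (f : ι → V) :
    ∀ᶠ p in cofinite, (D.ordV p (∏ i ∈ s, f i) → ∀ i ∈ s, D.ordV p (f i)) := by
  classical
  induction s using Finset.induction_on with
  | empty => exact Filter.Eventually.of_forall fun p _ i hi => absurd hi (Finset.notMem_empty i)
  | insert a s ha ih =>
    filter_upwards [ih, h.mul (f a) (∏ i ∈ s, f i)] with p h1 h2 h3 i hi
    rw [Finset.prod_insert ha, h2] at h3
    rcases Finset.mem_insert.mp hi with rfl | hi
    · exact h3.1
    · exact h1 h3.2 i hi

/-- The equivalence. -/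
theorem bk_tfae (h : IsBK D) (hV : Countable V) :
    List.TFAE [
      ∀ g : G, Dense (D.ord g),
      ∀ Y : W, InfW D Y,
      ∀ X : V, {p | D.ordV p X}.Infinite,
      ∀ s : Finset V, {p | ∀ X ∈ s, D.ordV p X}.Infinite,
      ∃ P₀ : Set Nat.Primes, P₀.Infinite ∧
        ∀ Y : W, (P₀ \ {p | ∀ P : D.place Y p, D.ordW Y p P}).Finite] := by
  tfae_have 1 → 2 := fun h1 Y => h.model Y (h1 _)
  tfae_have 2 → 3 := by
    intro h1 X
    have hinj : Set.InjOn (fun x : Σ p : Nat.Primes, D.place (D.incl X) p => x.1) Set.univ := by
      rintro ⟨p, P⟩ _ ⟨p', P'⟩ _ (rfl : p = p')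
      have := h.incl_place X p
      rw [Subsingleton.elim P P']
    refine ((h1 (D.incl X)).image (hinj.mono (Set.subset_univ _))).mono ?_
    rintro _ ⟨⟨p, P⟩, h3, rfl⟩
    exact (h.incl_ord X p P).mp h3
  tfae_have 3 → 4 := by
    intro h1 s
    have h2 := bk_prod h s id
    rw [Filter.eventually_cofinite] at h2
    refine ((h1 (∏ i ∈ s, id i)).sdiff h2).mono ?_
    rintro p ⟨h3, h4⟩
    by_contra h5
    exact h4 fun h6 => h5 (h6 h3)
  tfae_have 4 → 5 := by
    intro h1
    classical
    obtain ⟨e, he⟩ := exists_surjective_nat V
    obtain ⟨P₀, h2, h3⟩ := pseudo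
      (fun n => {p | ∀ X ∈ (Finset.range (n + 1)).image e, D.ordV p X})
      (fun n => h1 _) (fun m n hmn p hp X hX => hp X
        (Finset.image_subset_image (Finset.range_mono (by omega)) hX))
    refine ⟨P₀, h2, fun Y => ?_⟩
    obtain ⟨n, hn⟩ := he (D.weil Y)
    have h4 := h.weil Y
    rw [Filter.eventually_cofinite] at h4
    refine ((h3 n).union h4).subset ?_
    rintro p ⟨h5, h6⟩
    by_cases h7 : D.ordV p (D.weil Y)
    · exact Or.inr fun h8 => h6 (h8.mp h7)
    · refine Or.inl ⟨h5, fun h8 => h7 ?_⟩
      rw [← hn]
      exact h8 _ (Finset.mem_image_of_mem _ (Finset.self_mem_range_succ n))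
  tfae_have 5 → 2 := by
    rintro ⟨P₀, h2, h3⟩ Y
    have h4 := h2.sdiff (h3 Y)
    let P : ∀ p, D.place Y p := fun p => Classical.choice (h.nonempty Y p)
    have hinj : Set.InjOn (fun p => (⟨p, P p⟩ : Σ p : Nat.Primes, D.place Y p)) Set.univ := by
      intro p _ p' _ hpp
      exact congrArg Sigma.fst hpp
    refine (h4.image (hinj.mono (Set.subset_univ _))).mono ?_
    rintro _ ⟨p, ⟨h5, h6⟩, rfl⟩
    have h7 : ∀ P : D.place Y p, D.ordW Y p P := by
      by_contra h8
      exact h6 ⟨h5, h8⟩
    exact h7 (P p)
  tfae_have 2 → 1 := by
    intro h1 g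
    rw [← dense_closure]
    exact (h.dense_pts g).mono fun x hx => h.closure g x hx (h1 _)
  tfae_finish

end Pool.Agent.Q148.UP
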