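import Pool.Agent.Q148.UP.Slopes

/-!
# Motives and slopes: simultaneous ordinarity
-/

set_option autoImplicit false

open Filter

namespace Pool.Agent.Q148.UP

/-- Slopes of motives. `M` is the commutative semiring of the isomorphism classes of motives (sum = direct
sum, product = tensor product), `P` the set of primes. -/
structure SlopeData (M P : Type) where
  /-- the pairs `(ℓ, τ)` for the prime `𝔭` -/
  emb : P → Type
  /-- the slopes `v(τ(α))`, `α` the eigenvalues of Frobenius at `𝔭` on the `ℓ`-adic realization -/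
  newton : ∀ 𝔭 : P, emb 𝔭 → M → Multiset ℚ
  /-- the Hodge–Tate weights -/
  hodge : M → Multiset ℚ
  /-- the motives that are pure of weight `w` -/
  pure : ℤ → Set M
  /-- the Tate motives `ℚ(a)` -/
  tate : ℤ → M
  /-- the motives of the question -/
  eff : Set M

/-- For all pairs `(ℓ, τ)` the Newton polygon is the Hodge–Tate polygon. -/
def Ord {M P : Type} (D : SlopeData M P) (𝔭 : P) (R : M) : Prop :=
  ∀ τ : D.emb 𝔭, D.newton 𝔭 τ R = D.hodge R

/-- The standard properties. All statements on Newton polygons are for all but finitely many primes. -/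
structure IsSlope {M P : Type} [CommSemiring M] (D : SlopeData M P) : Prop where
  add : ∀ R S, ∀ᶠ 𝔭 in cofinite, ∀ τ, D.newton 𝔭 τ (R + S) = D.newton 𝔭 τ R + D.newton 𝔭 τ S
  mul : ∀ R S, ∀ᶠ 𝔭 in cofinite, ∀ τ,
    D.newton 𝔭 τ (R * S) = conv (D.newton 𝔭 τ R) (D.newton 𝔭 τ S)
  newton_tate : ∀ a : ℤ, ∀ᶠ 𝔭 in cofinite, ∀ τ, D.newton 𝔭 τ (D.tate a) = {-(a : ℚ)}
  card : ∀ R, ∀ᶠ 𝔭 in cofinite, ∀ τ, (D.newton 𝔭 τ R).card = (D.hodge R).card
  hodge_add : ∀ R S, D.hodge (R + S) = D.hodge R + D.hodge S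
  hodge_mul : ∀ R S, D.hodge (R * S) = conv (D.hodge R) (D.hodge S)
  hodge_tate : ∀ a : ℤ, D.hodge (D.tate a) = {-(a : ℚ)}
  pure_zero : ∀ w, 0 ∈ D.pure w
  pure_add : ∀ w, ∀ R ∈ D.pure w, ∀ S ∈ D.pure w, R + S ∈ D.pure w
  pure_mul : ∀ v w, ∀ R ∈ D.pure v, ∀ S ∈ D.pure w, R * S ∈ D.pure (v + w)
  pure_tate : ∀ a : ℤ, D.tate a ∈ D.pure (-2 * a)
  sum : ∀ R, ∃ (s : Finset ℤ) (f : ℤ → M), (∀ w ∈ s, f w ∈ D.pure w) ∧ R = ∑ w ∈ s, f w
  pure_eff : ∀ w, ∀ R ∈ D.pure w, ∃ a : ℤ, D.tate a * R ∈ D.eff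

variable {M P : Type} [CommSemiring M] {D : SlopeData M P}

lemma newton_zero (h : IsSlope D) : ∀ᶠ 𝔭 in cofinite, ∀ τ, D.newton 𝔭 τ 0 = 0 := by
  filter_upwards [h.add 0 0] with 𝔭 h1 τ
  have h2 := h1 τ
  rw [add_zero] at h2
  have h3 := congrArg Multiset.card h2
  rw [Multiset.card_add] at h3
  exact Multiset.card_eq_zero.mp (by omega)

lemma hodge_zero (h : IsSlope D) : D.hodge 0 = 0 := by
  have h2 := h.hodge_add 0 0
  rw [add_zero] at h2
  have h3 := congrArg Multiset.card h2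
  rw [Multiset.card_add] at h3
  exact Multiset.card_eq_zero.mp (by omega)

lemma newton_sum (h : IsSlope D) {ι : Type} (s : Finset ι) (f : ι → M) :
    ∀ᶠ 𝔭 in cofinite, ∀ τ, D.newton 𝔭 τ (∑ i ∈ s, f i) = ∑ i ∈ s, D.newton 𝔭 τ (f i) := by
  classical
  induction s using Finset.induction_on with
  | empty => simpa using newton_zero h
  | insert a s ha ih =>
    filter_upwards [ih, h.add (f a) (∑ i ∈ s, f i)] with 𝔭 h1 h2 τ
    rw [Finset.sum_insert ha, Finset.sum_insert ha, h2, h1]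

lemma hodge_sum (h : IsSlope D) {ι : Type} (s : Finset ι) (f : ι → M) :
    D.hodge (∑ i ∈ s, f i) = ∑ i ∈ s, D.hodge (f i) := by
  classical
  induction s using Finset.induction_on with
  | empty => simpa using hodge_zero h
  | insert a s ha ih => rw [Finset.sum_insert ha, Finset.sum_insert ha, h.hodge_add, ih]

lemma newton_nsmul (h : IsSlope D) (n : ℕ) (R : M) :
    ∀ᶠ 𝔭 in cofinite, ∀ τ, D.newton 𝔭 τ (n • R) = n • D.newton 𝔭 τ R := by
  filter_upwards [newton_sum h (Finset.range n) (fun _ => R)] with 𝔭 h1 τ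
  have h2 := h1 τ
  rwa [Finset.sum_const, Finset.card_range, Finset.sum_const, Finset.card_range] at h2

lemma hodge_nsmul (h : IsSlope D) (n : ℕ) (R : M) : D.hodge (n • R) = n • D.hodge R := by
  have h2 := hodge_sum h (Finset.range n) (fun _ => R)
  rwa [Finset.sum_const, Finset.card_range, Finset.sum_const, Finset.card_range] at h2

lemma ord_sum (h : IsSlope D) {ι : Type} (s : Finset ι) (f : ι → M) :
    ∀ᶠ 𝔭 in cofinite, (∀ i ∈ s, Ord D 𝔭 (f i)) → Ord D 𝔭 (∑ i ∈ s, f i) := by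
  filter_upwards [newton_sum h s f] with 𝔭 h1 h2 τ
  rw [h1, hodge_sum h]
  exact Finset.sum_congr rfl fun i hi => h2 i hi τ

lemma ord_twist (h : IsSlope D) (a : ℤ) (R : M) :
    ∀ᶠ 𝔭 in cofinite, (Ord D 𝔭 (D.tate a * R) ↔ Ord D 𝔭 R) := by
  filter_upwards [h.mul (D.tate a) R, h.newton_tate a] with 𝔭 h1 h2
  constructor
  · intro h3 τ
    have h4 := h3 τ
    rw [h1, h2, h.hodge_mul, h.hodge_tate] at h4
    exact conv_left_cancel h4
  · intro h3 τ
    rw [h1, h2, h.hodge_mul, h.hodge_tate, h3 τ]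

lemma ord_sq (h : IsSlope D) (a : ℤ) (R : M) :
    ∀ᶠ 𝔭 in cofinite, (Ord D 𝔭 (D.tate a * (R * R)) → Ord D 𝔭 R) := by
  filter_upwards [ord_twist h a (R * R), h.mul R R] with 𝔭 h1 h2 h3 τ
  have h4 := h1.mp h3 τ
  rw [h2, h.hodge_mul] at h4
  exact sq_inj h4

lemma pure_sum (h : IsSlope D) {w : ℤ} {ι : Type} (s : Finset ι) (f : ι → M)
    (hf : ∀ i ∈ s, f i ∈ D.pure w) : ∑ i ∈ s, f i ∈ D.pure w := by
  classical
  induction s using Finset.induction_on with
  | empty => simpa using h.pure_zero w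
  | insert a s ha ih =>
    rw [Finset.sum_insert ha]
    exact h.pure_add w _ (hf a (Finset.mem_insert_self a s)) _
      (ih fun i hi => hf i (Finset.mem_insert_of_mem hi))

lemma pure_nsmul (h : IsSlope D) {w : ℤ} {R : M} (hR : R ∈ D.pure w) (n : ℕ) :
    n • R ∈ D.pure w := by
  have h2 := pure_sum h (Finset.range n) (fun _ => R) (fun _ _ => hR)
  rwa [Finset.sum_const, Finset.card_range] at h2

/-- Ordinarity of finitely many motives from ordinarity of one motive. -/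
lemma ord_amplify (h : IsSlope D) (n : ℕ) (f : ℕ → M) (w : ℤ) (hf : ∀ i < n, f i ∈ D.pure w) :
    ∃ N ∈ D.pure w, ∀ᶠ 𝔭 in cofinite, Ord D 𝔭 N → ∀ i < n, Ord D 𝔭 (f i) := by
  let b : ℕ := 1 + ∑ i ∈ Finset.range n, (D.hodge (f i)).card
  have hb : ∀ i < n, (D.hodge (f i)).card < b := by
    intro i hi
    have : (D.hodge (f i)).card ≤ ∑ i ∈ Finset.range n, (D.hodge (f i)).card :=
      Finset.single_le_sum (f := fun i => (D.hodge (f i)).card) (fun _ _ => Nat.zero_le _)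
        (Finset.mem_range.mpr hi)
    omega
  refine ⟨∑ i ∈ Finset.range n, b ^ i • f i, pure_sum h _ _ fun i hi =>
    pure_nsmul h (hf i (Finset.mem_range.mp hi)) _, ?_⟩
  have h1 : ∀ᶠ 𝔭 in cofinite, ∀ i ∈ Finset.range n,
      (∀ τ, D.newton 𝔭 τ (b ^ i • f i) = b ^ i • D.newton 𝔭 τ (f i)) ∧
        ∀ τ, (D.newton 𝔭 τ (f i)).card = (D.hodge (f i)).card := by
    rw [Filter.eventually_all_finset]
    intro i _
    exact (newton_nsmul h _ _).and (h.card _)
  filter_upwards [h1, newton_sum h (Finset.range n) (fun i => b ^ i • f i)] with 𝔭 h2 h3 h4 i hi τ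
  refine amplify n b (fun i => D.newton 𝔭 τ (f i)) (fun i => D.hodge (f i))
    (fun i hi => ?_) hb ?_ i hi
  · rw [(h2 i (Finset.mem_range.mpr hi)).2]
    exact hb i hi
  · have h5 := h4 τ
    rw [h3, hodge_sum h] at h5
    have h6 : ∑ i ∈ Finset.range n, b ^ i • D.newton 𝔭 τ (f i) =
        ∑ i ∈ Finset.range n, D.newton 𝔭 τ (b ^ i • f i) :=
      Finset.sum_congr rfl fun i hi => ((h2 i hi).1 τ).symm
    rw [h6, h5]
    exact Finset.sum_congr rfl fun i hi => hodge_nsmul h _ _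

lemma infinite_of_eventually {A B : P → Prop} (hA : {𝔭 | A 𝔭}.Infinite)
    (h : ∀ᶠ 𝔭 in cofinite, A 𝔭 → B 𝔭) : {𝔭 | B 𝔭}.Infinite := by
  rw [Filter.eventually_cofinite] at h
  refine (hA.sdiff h).mono ?_
  rintro 𝔭 ⟨h1, h2⟩
  by_contra h3
  exact h2 fun h4 => h3 (h4 h1)

/-- Finitely many motives of all weights at the same time, from motives of weight zero. -/
theorem simultaneous (h : IsSlope D) (h0 : ∀ R ∈ D.pure 0, {𝔭 | Ord D 𝔭 R}.Infinite)
    (s : Finset M) : {𝔭 | ∀ R ∈ s, Ord D 𝔭 R}.Infinite := by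
  classical
  choose t f hf hR using h.sum
  -- the pure parts
  let L : List (M × ℤ) := (s.sigma fun R => t R).toList.map fun x => (x.1, x.2)
  let g : ℕ → M := fun i => match L[i]? with
    | some x => D.tate x.2 * (f x.1 x.2 * f x.1 x.2)
    | none => 0
  have hg : ∀ i < L.length, g i ∈ D.pure 0 := by
    intro i hi
    have h1 : L[i]? = some L[i] := List.getElem?_eq_getElem hi
    have h2 : L[i] ∈ L := List.getElem_mem hi
    have h3 : g i = D.tate L[i].2 * (f L[i].1 L[i].2 * f L[i].1 L[i].2) := by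
      simp only [g, h1]
    obtain ⟨⟨R, w⟩, hx, hx'⟩ := List.mem_map.mp h2
    rw [h3, ← hx']
    have h4 : w ∈ t R := (Finset.mem_sigma.mp (Finset.mem_toList.mp hx)).2
    have h5 := h.pure_mul _ _ _ (h.pure_tate w) _ (h.pure_mul _ _ _ (hf R w h4) _ (hf R w h4))
    have h6 : -2 * w + (w + w) = 0 := by ring
    rwa [h6] at h5
  obtain ⟨N, hN, hamp⟩ := ord_amplify h L.length g 0 hg
  refine infinite_of_eventually (h0 N hN) ?_
  have h1 : ∀ᶠ 𝔭 in cofinite, ∀ R ∈ s, (∀ w ∈ t R, Ord D 𝔭 (f R w)) → Ord D 𝔭 R := by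
    rw [Filter.eventually_all_finset]
    intro R _
    filter_upwards [ord_sum h (t R) (f R)] with 𝔭 h2 h3
    rw [hR R]
    exact h2 h3
  have h2 : ∀ᶠ 𝔭 in cofinite, ∀ R ∈ s, ∀ w ∈ t R,
      Ord D 𝔭 (D.tate w * (f R w * f R w)) → Ord D 𝔭 (f R w) := by
    rw [Filter.eventually_all_finset]
    intro R _
    rw [Filter.eventually_all_finset]
    intro w _
    exact ord_sq h w (f R w)
  filter_upwards [hamp, h1, h2] with 𝔭 h3 h4 h5 h6 R hRs
  refine h4 R hRs fun w hw => h5 R hRs w hw ?_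
  have h7 : (R, w) ∈ L := by
    refine List.mem_map.mpr ⟨⟨R, w⟩, ?_, rfl⟩
    exact Finset.mem_toList.mpr (Finset.mem_sigma.mpr ⟨hRs, hw⟩)
  obtain ⟨i, hi, h8⟩ := List.getElem_of_mem h7
  have h9 := h3 h6 i hi
  have h10 : L[i]? = some L[i] := List.getElem?_eq_getElem hi
  have h11 : g i = D.tate L[i].2 * (f L[i].1 L[i].2 * f L[i].1 L[i].2) := by
    simp only [g, h10]
  rw [h11, h8] at h9
  exact h9

/-- The equivalence. -/
theorem tfae (h : IsSlope D) (hM : Countable M) :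
    List.TFAE [
      ∀ R ∈ D.eff, {𝔭 | Ord D 𝔭 R}.Infinite,
      ∀ R ∈ D.pure 0, {𝔭 | Ord D 𝔭 R}.Infinite,
      ∀ s : Finset M, {𝔭 | ∀ R ∈ s, Ord D 𝔭 R}.Infinite,
      ∃ P₀ : Set P, P₀.Infinite ∧ ∀ R : M, (P₀ \ {𝔭 | Ord D 𝔭 R}).Finite] := by
  tfae_have 1 → 2 := by
    intro h1 R hR
    obtain ⟨a, ha⟩ := h.pure_eff 0 R hR
    refine infinite_of_eventually (h1 _ ha) ?_
    filter_upwards [ord_twist h a R] with 𝔭 h2 h3
    exact h2.mp h3
  tfae_have 2 → 3 := fun h0 s => simultaneous h h0 s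
  tfae_have 3 → 4 := by
    intro h1
    classical
    obtain ⟨e, he⟩ := exists_surjective_nat M
    obtain ⟨P₀, h2, h3⟩ := pseudo (fun n => {𝔭 | ∀ R ∈ (Finset.range (n + 1)).image e, Ord D 𝔭 R})
      (fun n => h1 _) (fun m n hmn 𝔭 h𝔭 R hR => h𝔭 R
        (Finset.image_subset_image (Finset.range_mono (by omega)) hR))
    refine ⟨P₀, h2, fun R => ?_⟩
    obtain ⟨n, rfl⟩ := he R
    refine (h3 n).subset ?_
    rintro 𝔭 ⟨h4, h5⟩
    exact ⟨h4, fun h6 => h5 (h6 _ (Finset.mem_image_of_mem _ (Finset.self_mem_range_succ n)))⟩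
  tfae_have 4 → 1 := by
    rintro ⟨P₀, h2, h3⟩ R _
    refine (h2.sdiff (h3 R)).mono ?_
    rintro 𝔭 ⟨h4, h5⟩
    by_contra h6
    exact h5 ⟨h4, h6⟩
  tfae_finish

end Pool.Agent.Q148.UP
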