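import Pool.Agent.Q148.UP.Slopes

/-!
# Multisets of pairs (degree, slope)
-/

set_option autoImplicit false

open AddMonoidAlgebra Filter

namespace Pool.Agent.Q148.UP

/-- Multisets of pairs (degree, slope). -/
abbrev MS : Type := Multiset (ℤ × ℚ)

/-- All sums, with multiplicities. -/
def cnv (a b : MS) : MS := (a ×ˢ b).map fun x => x.1 + x.2

/-- The part of degree `n`. -/
def deg (n : ℤ) (a : MS) : MS := a.filter fun x => x.1 = n

/-- The part of even degree. -/
def ev (a : MS) : MS := a.filter fun x => Even x.1

/-- The part of odd degree. -/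
def od (a : MS) : MS := a.filter fun x => ¬ Even x.1

lemma ev_add_od (a : MS) : ev a + od a = a := Multiset.filter_add_not _ a

/-- The generating function. -/
noncomputable def gn (m : MS) : ℤ[ℤ × ℚ] := (m.map fun x => single x (1 : ℤ)).sum

lemma gn_add (a b : MS) : gn (a + b) = gn a + gn b := by
  rw [gn, Multiset.map_add, Multiset.sum_add]
  rfl

lemma gn_cons (x : ℤ × ℚ) (s : MS) : gn (x ::ₘ s) = single x (1 : ℤ) + gn s := by
  rw [gn, Multiset.map_cons, Multiset.sum_cons]
  rfl

lemma coeff_gn (m : MS) (q : ℤ × ℚ) : (gn m).coeff q = m.count q := by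
  induction m using Multiset.induction_on with
  | empty => simp [gn]
  | cons a s ih =>
    rw [gn_cons, coeff_add, Finsupp.add_apply, ih, coeff_single, Finsupp.single_apply]
    by_cases h : a = q
    · subst h
      rw [if_pos rfl, Multiset.count_cons_self]
      push_cast
      ring
    · rw [if_neg h, Multiset.count_cons_of_ne (Ne.symm h), zero_add]

lemma gn_inj {a b : MS} (h : gn a = gn b) : a = b := by
  ext q
  have h1 := congrArg (fun x => x.coeff q) h
  simp only [coeff_gn] at h1
  exact_mod_cast h1

lemma cnv_cons (x : ℤ × ℚ) (s b : MS) :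
    cnv (x ::ₘ s) b = b.map (fun y => x + y) + cnv s b := by
  rw [cnv, Multiset.cons_product, Multiset.map_add, Multiset.map_map]
  rfl

lemma cnv_zero (b : MS) : cnv 0 b = 0 := by
  rw [cnv, Multiset.zero_product, Multiset.map_zero]

lemma gn_cnv (a b : MS) : gn (cnv a b) = gn a * gn b := by
  induction a using Multiset.induction_on with
  | empty => simp [cnv_zero, gn]
  | cons x s ih =>
    have h2 : gn (b.map (fun y => x + y)) = single x (1 : ℤ) * gn b := by
      rw [gn, gn, Multiset.map_map, ← Multiset.sum_map_mul_left]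
      congr 1
      apply Multiset.map_congr rfl
      intro y _
      rw [Function.comp_apply, single_mul_single, one_mul]
    rw [cnv_cons, gn_add, h2, ih, gn_cons, add_mul]

lemma cnv_comm (a b : MS) : cnv a b = cnv b a :=
  gn_inj (by rw [gn_cnv, gn_cnv, mul_comm])

/-- The squares determine the multisets. -/
lemma sqr_inj {a b : MS} (h : cnv a a = cnv b b) : a = b := by
  have h1 := congrArg gn h
  rw [gn_cnv, gn_cnv] at h1
  have h2 : (gn a - gn b) * (gn a + gn b) = 0 := by
    rw [mul_add, sub_mul, sub_mul, h1, mul_comm (gn b) (gn a)]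
    abel
  rcases mul_eq_zero.mp h2 with h3 | h3
  · exact gn_inj (sub_eq_zero.mp h3)
  · have h4 : ∀ q, a.count q = 0 ∧ b.count q = 0 := by
      intro q
      have h5 := congrArg (fun x => x.coeff q) h3
      simp only [coeff_add, Finsupp.add_apply, coeff_gn, coeff_zero, Finsupp.coe_zero,
        Pi.zero_apply] at h5
      omega
    ext q
    rw [(h4 q).1, (h4 q).2]

lemma ev_cnv (a b : MS) : ev (cnv a b) = cnv (ev a) (ev b) + cnv (od a) (od b) := by
  induction a using Multiset.induction_on with
  | empty => simp [cnv_zero, ev, od]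
  | cons x s ih =>
    have h1 : ev (cnv (x ::ₘ s) b) = ev (b.map (fun y => x + y)) + ev (cnv s b) := by
      rw [cnv_cons, ev, Multiset.filter_add]
      rfl
    rw [h1, ih]
    by_cases hx : Even x.1
    · have h2 : ev (x ::ₘ s) = x ::ₘ ev s := Multiset.filter_cons_of_pos _ hx
      have h3 : od (x ::ₘ s) = od s := Multiset.filter_cons_of_neg _ (by simpa using hx)
      have h4 : ev (b.map (fun y => x + y)) = (ev b).map (fun y => x + y) := by
        rw [ev, ev, Multiset.filter_map]
        congr 1
        apply Multiset.filter_congr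
        intro y _
        simp only [Function.comp_apply, Prod.fst_add]
        rw [Int.even_add]
        exact iff_true_left hx
      rw [h2, h3, h4, cnv_cons, add_assoc]
    · have h2 : ev (x ::ₘ s) = ev s := Multiset.filter_cons_of_neg _ hx
      have h3 : od (x ::ₘ s) = x ::ₘ od s := Multiset.filter_cons_of_pos _ hx
      have h4 : ev (b.map (fun y => x + y)) = (od b).map (fun y => x + y) := by
        rw [ev, od, Multiset.filter_map]
        congr 1
        apply Multiset.filter_congr
        intro y _
        simp only [Function.comp_apply, Prod.fst_add]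
        rw [Int.even_add]
        exact iff_false_left hx |>.trans (by rfl)
      rw [h2, h3, h4, cnv_cons]
      abel

lemma od_of_ev {a b : MS} (h1 : ev a = ev b) (h2 : ev (cnv a a) = ev (cnv b b)) : a = b := by
  rw [ev_cnv, ev_cnv, h1] at h2
  have h3 : od a = od b := sqr_inj (add_left_cancel h2)
  rw [← ev_add_od a, ← ev_add_od b, h1, h3]

/-- The cohomology of the projective line. -/
def lineMS : MS := {(0, 0), (2, 1)}

lemma cnv_line (a : MS) : cnv a lineMS = a + a.map (fun y => (2, 1) + y) := by
  rw [cnv_comm, lineMS]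
  change cnv ((0, 0) ::ₘ (2, 1) ::ₘ 0) a = _
  rw [cnv_cons, cnv_cons, cnv_zero, add_zero]
  congr 1
  have : (fun y : ℤ × ℚ => ((0, 0) : ℤ × ℚ) + y) = id := by
    funext y
    simp
  rw [this, Multiset.map_id]

lemma deg_line (n : ℤ) (a : MS) :
    deg n (cnv a lineMS) = deg n a + (deg (n - 2) a).map (fun y => (2, 1) + y) := by
  rw [cnv_line, deg, Multiset.filter_add]
  congr 1
  rw [deg, Multiset.filter_map]
  congr 1
  apply Multiset.filter_congr
  intro y _
  simp only [Function.comp_apply, Prod.fst_add]
  constructor <;> intro h <;> omega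

lemma peel {n : ℤ} {a b : MS} (h1 : deg n a = deg n b)
    (h2 : deg n (cnv a lineMS) = deg n (cnv b lineMS)) : deg (n - 2) a = deg (n - 2) b := by
  rw [deg_line, deg_line, h1] at h2
  exact Multiset.map_injective (add_right_injective ((2, 1) : ℤ × ℚ)) (add_left_cancel h2)

lemma deg_add (n : ℤ) (a b : MS) : deg n (a + b) = deg n a + deg n b := Multiset.filter_add _ _ _

lemma deg_nsmul (n : ℤ) (c : ℕ) (a : MS) : deg n (c • a) = c • deg n a := by
  induction c with
  | zero => simp [deg]
  | succ c ih => rw [add_smul, deg_add, ih, one_smul, add_smul, one_smul]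

lemma deg_sum (n : ℤ) {ι : Type} (s : Finset ι) (f : ι → MS) :
    deg n (∑ i ∈ s, f i) = ∑ i ∈ s, deg n (f i) := by
  classical
  induction s using Finset.induction_on with
  | empty => simp [deg]
  | insert a s ha ih => rw [Finset.sum_insert ha, deg_add, ih, Finset.sum_insert ha]

lemma card_deg_le (n : ℤ) (a : MS) : (deg n a).card ≤ a.card :=
  Multiset.card_le_card (Multiset.filter_le _ a)

lemma ev_ext {a b : MS} (h : ∀ n, Even n → deg n a = deg n b) : ev a = ev b := by
  ext x
  by_cases hx : Even x.1
  · have h1 := congrArg (Multiset.count x) (h x.1 hx)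
    rw [deg, deg, Multiset.count_filter_of_pos (p := fun y : ℤ × ℚ => y.1 = x.1) rfl,
      Multiset.count_filter_of_pos (p := fun y : ℤ × ℚ => y.1 = x.1) rfl] at h1
    rw [ev, ev, Multiset.count_filter_of_pos (p := fun y : ℤ × ℚ => Even y.1) hx,
      Multiset.count_filter_of_pos (p := fun y : ℤ × ℚ => Even y.1) hx, h1]
  · rw [ev, ev, Multiset.count_filter_of_neg (p := fun y : ℤ × ℚ => Even y.1) hx,
      Multiset.count_filter_of_neg (p := fun y : ℤ × ℚ => Even y.1) hx]

/-- The amplification by multiplicities. -/
lemma amplify2 (n b : ℕ) (s h : ℕ → MS) (hs : ∀ i < n, (s i).card < b)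
    (hh : ∀ i < n, (h i).card < b)
    (e : ∑ i ∈ Finset.range n, b ^ i • s i = ∑ i ∈ Finset.range n, b ^ i • h i) :
    ∀ i < n, s i = h i := by
  have h1 : ∀ q, ∀ i < n, (s i).count q = (h i).count q := by
    intro q
    refine digits b n (fun i => (s i).count q) (fun i => (h i).count q)
      (fun i hi => (Multiset.count_le_card q _).trans_lt (hs i hi))
      (fun i hi => (Multiset.count_le_card q _).trans_lt (hh i hi)) ?_
    have h2 := congrArg (Multiset.count q) e
    rw [Multiset.count_sum', Multiset.count_sum'] at h2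
    simpa only [Multiset.count_nsmul] using h2
  intro i hi
  ext q
  exact h1 q i hi

/-- `∑ min(slope, t)` over the part of degree `n`. -/
def msum (n : ℤ) (t : ℚ) (a : MS) : ℚ := ((deg n a).map fun x => min x.2 t).sum

/-- The Newton polygon `a` lies above the polygon `b`, in all degrees. For polygons with the same number
of slopes this is equivalent to: for all `t` the sum of the numbers `min(slope, t)` for `a` is at least the
one for `b`. -/
def Above (a b : MS) : Prop := ∀ n t, msum n t b ≤ msum n t a

lemma msum_add (n : ℤ) (t : ℚ) (a b : MS) : msum n t (a + b) = msum n t a + msum n t b := by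
  rw [msum, deg_add, Multiset.map_add, Multiset.sum_add]
  rfl

lemma msum_zero (n : ℤ) (t : ℚ) : msum n t 0 = 0 := by
  simp [msum, deg]

lemma msum_nsmul (n : ℤ) (t : ℚ) (c : ℕ) (a : MS) : msum n t (c • a) = c * msum n t a := by
  induction c with
  | zero => simp [msum_zero]
  | succ c ih =>
    rw [add_smul, msum_add, ih, one_smul]
    push_cast
    ring

lemma msum_sum (n : ℤ) (t : ℚ) {ι : Type} (s : Finset ι) (f : ι → MS) :
    msum n t (∑ i ∈ s, f i) = ∑ i ∈ s, msum n t (f i) := by
  classical
  induction s using Finset.induction_on with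
  | empty => simp [msum_zero]
  | insert a s ha ih => rw [Finset.sum_insert ha, msum_add, ih, Finset.sum_insert ha]

lemma exists_gap (a : ℚ) (m : MS) : ∃ ε : ℚ, 0 < ε ∧ ∀ x ∈ m, x.2 = a ∨ ε ≤ |x.2 - a| := by
  induction m using Multiset.induction_on with
  | empty => exact ⟨1, one_pos, fun x hx => absurd hx (Multiset.notMem_zero x)⟩
  | cons x s ih =>
    obtain ⟨ε, h1, h2⟩ := ih
    by_cases hx : x.2 = a
    · refine ⟨ε, h1, fun y hy => ?_⟩
      rcases Multiset.mem_cons.mp hy with rfl | hy
      · exact Or.inl hx
      · exact h2 y hy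
    · have h3 : 0 < |x.2 - a| := abs_pos.mpr (sub_ne_zero.mpr hx)
      refine ⟨min ε |x.2 - a|, lt_min h1 h3, fun y hy => ?_⟩
      rcases Multiset.mem_cons.mp hy with rfl | hy
      · exact Or.inr (min_le_right _ _)
      · rcases h2 y hy with h4 | h4
        · exact Or.inl h4
        · exact Or.inr ((min_le_left _ _).trans h4)

lemma second_diff (a ε : ℚ) (hε : 0 < ε) (m : MS) (h : ∀ x ∈ m, x.2 = a ∨ ε ≤ |x.2 - a|) :
    (m.map fun x => min x.2 (a - ε)).sum - 2 * (m.map fun x => min x.2 a).sum +
      (m.map fun x => min x.2 (a + ε)).sum = - ε * (m.filter fun x => x.2 = a).card := by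
  induction m using Multiset.induction_on with
  | empty => simp
  | cons x s ih =>
    have h1 := ih fun y hy => h y (Multiset.mem_cons_of_mem hy)
    rw [Multiset.map_cons, Multiset.map_cons, Multiset.map_cons, Multiset.sum_cons, Multiset.sum_cons,
      Multiset.sum_cons]
    rcases h x (Multiset.mem_cons_self x s) with h2 | h2
    · rw [Multiset.filter_cons_of_pos (p := fun x : ℤ × ℚ => x.2 = a) _ h2, Multiset.card_cons, h2, min_eq_right (by linarith),
        min_self, min_eq_left (by linarith)]
      push_cast
      linarith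
    · have h3 : x.2 ≠ a := by
        intro h4
        rw [h4, sub_self, abs_zero] at h2
        linarith
      rw [Multiset.filter_cons_of_neg (p := fun x : ℤ × ℚ => x.2 = a) _ h3]
      rcases le_total x.2 a with h4 | h4
      · have h5 : |x.2 - a| = a - x.2 := by
          rw [abs_of_nonpos (by linarith)]
          ring
        rw [h5] at h2
        rw [min_eq_left (by linarith : x.2 ≤ a - ε), min_eq_left h4,
          min_eq_left (by linarith : x.2 ≤ a + ε)]
        linarith
      · have h5 : |x.2 - a| = x.2 - a := abs_of_nonneg (by linarith)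
        rw [h5] at h2
        rw [min_eq_right (by linarith : a - ε ≤ x.2), min_eq_right h4,
          min_eq_right (by linarith : a + ε ≤ x.2)]
        linarith

lemma msum_inj {a b : MS} (h : ∀ n t, msum n t a = msum n t b) : a = b := by
  ext ⟨n, x⟩
  obtain ⟨ε, hε, h1⟩ := exists_gap x (deg n a + deg n b)
  have ha := second_diff x ε hε (deg n a) fun y hy => h1 y (Multiset.mem_add.mpr (Or.inl hy))
  have hb := second_diff x ε hε (deg n b) fun y hy => h1 y (Multiset.mem_add.mpr (Or.inr hy))
  have h2 : ∀ t, ((deg n a).map fun x => min x.2 t).sum = ((deg n b).map fun x => min x.2 t).sum :=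
    fun t => h n t
  rw [h2, h2, h2, hb] at ha
  have h3 : ((deg n b).filter fun y => y.2 = x).card = ((deg n a).filter fun y => y.2 = x).card := by
    have h4 := mul_left_cancel₀ (neg_ne_zero.mpr hε.ne') ha
    exact_mod_cast h4
  have h5 : ∀ m : MS, ((deg n m).filter fun y => y.2 = x).card = m.count (n, x) := by
    intro m
    rw [deg, Multiset.filter_filter, Multiset.count_eq_card_filter_eq]
    congr 1
    apply Multiset.filter_congr
    rintro ⟨y, z⟩ _
    simp only [Prod.mk.injEq]
    constructor
    · rintro ⟨rfl, rfl⟩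
      exact ⟨rfl, rfl⟩
    · rintro ⟨rfl, rfl⟩
      exact ⟨rfl, rfl⟩
  rw [← h5 a, ← h5 b, h3]

/-- A mean of polygons above `b` is `b` only if all of them are `b`. -/
lemma all_of_mean {ι : Type} (s : Finset ι) (f : ι → ℕ) (hf : ∀ i ∈ s, 0 < f i) (a : ι → MS) (b : MS)
    (h : ∀ i ∈ s, Above (a i) b) (e : ∑ i ∈ s, f i • a i = (∑ i ∈ s, f i) • b) :
    ∀ i ∈ s, a i = b := by
  intro i hi
  apply msum_inj
  intro n t
  have h1 := congrArg (msum n t) e
  rw [msum_sum, msum_nsmul] at h1
  push_cast at h1
  simp only [msum_nsmul] at h1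
  rw [Finset.sum_mul] at h1
  have h2 := (Finset.sum_eq_sum_iff_of_le (s := s) (f := fun i => (f i : ℚ) * msum n t b)
    (g := fun i => (f i : ℚ) * msum n t (a i)) (fun i hi =>
      mul_le_mul_of_nonneg_left (h i hi n t) (Nat.cast_nonneg _))).mp h1.symm i hi
  have h3 : (f i : ℚ) ≠ 0 := by exact_mod_cast (hf i hi).ne'
  exact (mul_left_cancel₀ h3 h2).symm

end Pool.Agent.Q148.UP
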