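import Mathlib

/-!
# Multisets of slopes
-/

set_option autoImplicit false

open AddMonoidAlgebra Filter

namespace Pool.Agent.Q148.UP

/-- All sums `x + y` with `x` in `a` and `y` in `b`, with multiplicities. -/
def conv (a b : Multiset ℚ) : Multiset ℚ := (a ×ˢ b).map fun x => x.1 + x.2

/-- The generating function `∑ t ^ x`. -/
noncomputable def gen (m : Multiset ℚ) : ℤ[ℚ] := (m.map fun x => single x (1 : ℤ)).sum

lemma gen_add (a b : Multiset ℚ) : gen (a + b) = gen a + gen b := by
  rw [gen, Multiset.map_add, Multiset.sum_add]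
  rfl

lemma coeff_gen (m : Multiset ℚ) (q : ℚ) : (gen m).coeff q = m.count q := by
  induction m using Multiset.induction_on with
  | empty => simp [gen]
  | cons a s ih =>
    have h1 : gen (a ::ₘ s) = single a (1 : ℤ) + gen s := by
      rw [gen, Multiset.map_cons, Multiset.sum_cons]
      rfl
    rw [h1, coeff_add, Finsupp.add_apply, ih, coeff_single, Finsupp.single_apply]
    by_cases h : a = q
    · subst h
      rw [if_pos rfl, Multiset.count_cons_self]
      push_cast
      ring
    · rw [if_neg h, Multiset.count_cons_of_ne (Ne.symm h), zero_add]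

lemma gen_inj {a b : Multiset ℚ} (h : gen a = gen b) : a = b := by
  ext q
  have h1 := congrArg (fun x => x.coeff q) h
  simp only [coeff_gen] at h1
  exact_mod_cast h1

lemma gen_singleton (x : ℚ) : gen {x} = single x (1 : ℤ) := by
  simp [gen]

lemma gen_conv (a b : Multiset ℚ) : gen (conv a b) = gen a * gen b := by
  induction a using Multiset.induction_on with
  | empty => simp [conv, gen]
  | cons x s ih =>
    have h1 : conv (x ::ₘ s) b = b.map (fun y => x + y) + conv s b := by
      rw [conv, Multiset.cons_product, Multiset.map_add, Multiset.map_map]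
      rfl
    have h2 : gen (b.map (fun y => x + y)) = single x (1 : ℤ) * gen b := by
      rw [gen, gen, Multiset.map_map, ← Multiset.sum_map_mul_left]
      congr 1
      apply Multiset.map_congr rfl
      intro y _
      rw [Function.comp_apply, single_mul_single, one_mul]
    have h3 : gen (x ::ₘ s) = single x (1 : ℤ) + gen s := by
      rw [gen, Multiset.map_cons, Multiset.sum_cons]
      rfl
    rw [h1, gen_add, h2, ih, h3, add_mul]

lemma conv_singleton (x : ℚ) (a : Multiset ℚ) : conv {x} a = a.map (fun y => x + y) := by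
  rw [conv]
  have : ({x} : Multiset ℚ) ×ˢ a = a.map (fun y => (x, y)) := by
    rw [← Multiset.cons_zero, Multiset.cons_product, Multiset.zero_product, add_zero]
  rw [this, Multiset.map_map]
  rfl

lemma conv_left_cancel {x : ℚ} {a b : Multiset ℚ} (h : conv {x} a = conv {x} b) : a = b := by
  rw [conv_singleton, conv_singleton] at h
  exact Multiset.map_injective (add_right_injective x) h

/-- The squares determine the multisets. -/
lemma sq_inj {a b : Multiset ℚ} (h : conv a a = conv b b) : a = b := by
  have h1 := congrArg gen h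
  rw [gen_conv, gen_conv] at h1
  have h2 : (gen a - gen b) * (gen a + gen b) = 0 := by
    rw [mul_add, sub_mul, sub_mul, h1, mul_comm (gen b) (gen a)]
    abel
  rcases mul_eq_zero.mp h2 with h3 | h3
  · exact gen_inj (sub_eq_zero.mp h3)
  · have h4 : ∀ q, a.count q = 0 ∧ b.count q = 0 := by
      intro q
      have h5 := congrArg (fun x => x.coeff q) h3
      simp only [coeff_add, Finsupp.add_apply, coeff_gen, coeff_zero, Finsupp.coe_zero,
        Pi.zero_apply] at h5
      omega
    ext q
    rw [(h4 q).1, (h4 q).2]

/-- Uniqueness of the digits. -/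
lemma digits (b : ℕ) (n : ℕ) : ∀ (x y : ℕ → ℕ), (∀ i < n, x i < b) → (∀ i < n, y i < b) →
    ∑ i ∈ Finset.range n, b ^ i * x i = ∑ i ∈ Finset.range n, b ^ i * y i →
    ∀ i < n, x i = y i := by
  induction n with
  | zero => intro x y _ _ _ i hi; omega
  | succ n ih =>
    intro x y hx hy h
    rw [Finset.sum_range_succ', Finset.sum_range_succ'] at h
    have hf : ∀ z : ℕ → ℕ, ∑ i ∈ Finset.range n, b ^ (i + 1) * z (i + 1) =
        b * ∑ i ∈ Finset.range n, b ^ i * z (i + 1) := by
      intro z
      rw [Finset.mul_sum]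
      apply Finset.sum_congr rfl
      intro i _
      rw [pow_succ]
      ring
    rw [hf x, hf y, pow_zero, one_mul, one_mul] at h
    have hb : 0 < b := lt_of_le_of_lt (Nat.zero_le _) (hx 0 (Nat.succ_pos n))
    have h0 : x 0 = y 0 := by
      have h1 := congrArg (· % b) h
      simp only [Nat.mul_add_mod] at h1
      rwa [Nat.mod_eq_of_lt (hx 0 (Nat.succ_pos n)), Nat.mod_eq_of_lt (hy 0 (Nat.succ_pos n))] at h1
    have h2 : ∑ i ∈ Finset.range n, b ^ i * x (i + 1) = ∑ i ∈ Finset.range n, b ^ i * y (i + 1) := by
      rw [h0] at h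
      exact Nat.eq_of_mul_eq_mul_left hb (Nat.add_right_cancel h)
    have h3 := ih (fun i => x (i + 1)) (fun i => y (i + 1)) (fun i hi => hx _ (by omega))
      (fun i hi => hy _ (by omega)) h2
    intro i hi
    rcases i with _ | i
    · exact h0
    · exact h3 i (by omega)

/-- The amplification by multiplicities. -/
lemma amplify (n b : ℕ) (s h : ℕ → Multiset ℚ) (hs : ∀ i < n, (s i).card < b)
    (hh : ∀ i < n, (h i).card < b)
    (e : ∑ i ∈ Finset.range n, b ^ i • s i = ∑ i ∈ Finset.range n, b ^ i • h i) :
    ∀ i < n, s i = h i := by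
  have h1 : ∀ q, ∀ i < n, (s i).count q = (h i).count q := by
    intro q
    refine digits b n (fun i => (s i).count q) (fun i => (h i).count q)
      (fun i hi => (Multiset.count_le_card q _).trans_lt (hs i hi))
      (fun i hi => (Multiset.count_le_card q _).trans_lt (hh i hi)) ?_
    have h2 := congrArg (Multiset.count q) e
    rw [Multiset.count_sum', Multiset.count_sum'] at h2
    simpa only [Multiset.count_nsmul] using h2
  intro i hi
  ext q
  exact h1 q i hi

/-- An infinite set that is almost contained in each of the sets of a decreasing sequence of infinite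
sets. -/
lemma pseudo {P : Type} (A : ℕ → Set P) (hA : ∀ n, (A n).Infinite) (hd : ∀ m n, m ≤ n → A n ⊆ A m) :
    ∃ P₀ : Set P, P₀.Infinite ∧ ∀ n, (P₀ \ A n).Finite := by
  obtain ⟨f, h1, h2⟩ := exists_seq_of_forall_finset_exists (α := ℕ × P) (fun x => x.2 ∈ A x.1)
    (fun x y => x.1 < y.1 ∧ x.2 ≠ y.2) (by
      classical
      intro s _
      let n : ℕ := 1 + ∑ x ∈ s, x.1
      obtain ⟨q, hq, hq'⟩ := (hA n).exists_notMem_finset (s.image Prod.snd)
      refine ⟨(n, q), hq, fun x hx => ⟨?_, ?_⟩⟩
      · change x.1 < 1 + ∑ x ∈ s, x.1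
        have h : x.1 ≤ ∑ x ∈ s, x.1 :=
          Finset.single_le_sum (f := fun x : ℕ × P => x.1) (fun _ _ => Nat.zero_le _) hx
        omega
      · rintro rfl
        exact hq' (Finset.mem_image_of_mem _ hx))
  have hmono : StrictMono fun n => (f n).1 := by
    intro m n hmn
    exact (h2 m n hmn).1
  have hinj : Function.Injective fun n => (f n).2 := by
    intro m n hmn
    rcases lt_trichotomy m n with h | h | h
    · exact absurd hmn (h2 m n h).2
    · exact h
    · exact absurd hmn.symm (h2 n m h).2
  refine ⟨Set.range fun n => (f n).2, Set.infinite_range_of_injective hinj, fun n => ?_⟩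
  refine (Set.finite_Iio n).image (fun n => (f n).2) |>.subset ?_
  rintro _ ⟨⟨m, rfl⟩, hm⟩
  refine ⟨m, ?_, rfl⟩
  by_contra hc
  rw [Set.mem_Iio, not_lt] at hc
  exact hm (hd n (f m).1 (hc.trans (hmono.id_le m)) (h1 m))

end Pool.Agent.Q148.UP
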