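import Pool.Agent.Q148.UP.Pairs

/-!
# Varieties over number fields and slopes
-/

set_option autoImplicit false

open Filter

namespace Pool.Agent.Q148.UP

/-- Slopes of varieties over number fields. `V` is the commutative semiring of isomorphism classes of
projective varieties over `ℚ` (sum = disjoint union, product = product), `W` the set of isomorphism classes
of pairs (number field `F`, projective variety over `F`). -/
structure VarData (V W : Type) where
  /-- the pairs `(n, slope)` for Frobenius at `p` on `IH^n(X)`, `X` over `ℚ` -/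
  newt : Nat.Primes → V → MS
  /-- the pairs `(n, Hodge–Tate weight of IH^n(X))`, `X` over `ℚ` -/
  hodge : V → MS
  /-- the places above `p` of the field of definition -/
  place : W → Nat.Primes → Type
  /-- they are finitely many -/
  fin : ∀ Y p, Fintype (place Y p)
  /-- the residue degrees -/
  res : ∀ Y p, place Y p → ℕ
  /-- the pairs `(n, slope)` for Frobenius at a place on `IH^n(Y)` -/
  newtW : ∀ Y p, place Y p → MS
  /-- the pairs `(n, Hodge–Tate weight of IH^n(Y))` -/
  hodgeW : W → MS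
  /-- `Y → Spec F → Spec ℚ` -/
  down : W → V
  /-- a variety over the number field `ℚ` -/
  incl : V → W
  /-- the projective line over `ℚ` -/
  line : V

attribute [instance] VarData.fin

/-- The standard properties. The statements on Newton polygons are for all but finitely many primes. -/
structure IsVar {V W : Type} [CommSemiring V] (D : VarData V W) : Prop where
  add : ∀ X Y, ∀ᶠ p in cofinite, D.newt p (X + Y) = D.newt p X + D.newt p Y
  mul : ∀ X Y, ∀ᶠ p in cofinite, D.newt p (X * Y) = cnv (D.newt p X) (D.newt p Y)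
  newt_line : ∀ᶠ p in cofinite, D.newt p D.line = lineMS
  card : ∀ X, ∀ᶠ p in cofinite, (D.newt p X).card = (D.hodge X).card
  degrees : ∀ X, ∃ d : ℕ, ∀ n : ℤ, (n < 0 ∨ 2 * d < n) →
    deg n (D.hodge X) = 0 ∧ ∀ᶠ p in cofinite, ∀ n : ℤ, (n < 0 ∨ 2 * d < n) → deg n (D.newt p X) = 0
  hodge_add : ∀ X Y, D.hodge (X + Y) = D.hodge X + D.hodge Y
  hodge_mul : ∀ X Y, D.hodge (X * Y) = cnv (D.hodge X) (D.hodge Y)
  hodge_line : D.hodge D.line = lineMS
  nonempty : ∀ Y p, Nonempty (D.place Y p)
  res_pos : ∀ Y p P, 0 < D.res Y p P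
  down_newt : ∀ Y, ∀ᶠ p in cofinite, D.newt p (D.down Y) = ∑ P, D.res Y p P • D.newtW Y p P
  down_hodge : ∀ Y, ∀ᶠ p in cofinite, D.hodge (D.down Y) = (∑ P, D.res Y p P) • D.hodgeW Y
  above : ∀ Y, ∀ᶠ p in cofinite, ∀ P, Above (D.newtW Y p P) (D.hodgeW Y)
  incl_place : ∀ X p, Subsingleton (D.place (D.incl X) p)
  incl_newt : ∀ X p P, D.newtW (D.incl X) p P = D.newt p X
  incl_hodge : ∀ X, D.hodgeW (D.incl X) = D.hodge X

variable {V W : Type} [CommSemiring V] {D : VarData V W}

lemma vnewt_zero (h : IsVar D) : ∀ᶠ p in cofinite, D.newt p 0 = 0 := by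
  filter_upwards [h.add 0 0] with p h2
  rw [add_zero] at h2
  have h3 := congrArg Multiset.card h2
  rw [Multiset.card_add] at h3
  exact Multiset.card_eq_zero.mp (by omega)

lemma vhodge_zero (h : IsVar D) : D.hodge 0 = 0 := by
  have h2 := h.hodge_add 0 0
  rw [add_zero] at h2
  have h3 := congrArg Multiset.card h2
  rw [Multiset.card_add] at h3
  exact Multiset.card_eq_zero.mp (by omega)

lemma vnewt_sum (h : IsVar D) {ι : Type} (s : Finset ι) (f : ι → V) :
    ∀ᶠ p in cofinite, D.newt p (∑ i ∈ s, f i) = ∑ i ∈ s, D.newt p (f i) := by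
  classical
  induction s using Finset.induction_on with
  | empty => simpa using vnewt_zero h
  | insert a s ha ih =>
    filter_upwards [ih, h.add (f a) (∑ i ∈ s, f i)] with p h1 h2
    rw [Finset.sum_insert ha, Finset.sum_insert ha, h2, h1]

lemma vhodge_sum (h : IsVar D) {ι : Type} (s : Finset ι) (f : ι → V) :
    D.hodge (∑ i ∈ s, f i) = ∑ i ∈ s, D.hodge (f i) := by
  classical
  induction s using Finset.induction_on with
  | empty => simpa using vhodge_zero h
  | insert a s ha ih => rw [Finset.sum_insert ha, Finset.sum_insert ha, h.hodge_add, ih]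

lemma vnewt_nsmul (h : IsVar D) (n : ℕ) (X : V) :
    ∀ᶠ p in cofinite, D.newt p (n • X) = n • D.newt p X := by
  filter_upwards [vnewt_sum h (Finset.range n) (fun _ => X)] with p h2
  rwa [Finset.sum_const, Finset.card_range, Finset.sum_const, Finset.card_range] at h2

lemma vhodge_nsmul (h : IsVar D) (n : ℕ) (X : V) : D.hodge (n • X) = n • D.hodge X := by
  have h2 := vhodge_sum h (Finset.range n) (fun _ => X)
  rwa [Finset.sum_const, Finset.card_range, Finset.sum_const, Finset.card_range] at h2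

/-- `X` is ordinary at `p` in degree `n`. -/
def OrdAt (D : VarData V W) (p : Nat.Primes) (X : V) (n : ℤ) : Prop :=
  deg n (D.newt p X) = deg n (D.hodge X)

/-- `X` is ordinary at `p` in all degrees. -/
def OrdAll (D : VarData V W) (p : Nat.Primes) (X : V) : Prop := D.newt p X = D.hodge X

/-- Ordinarity of finitely many varieties in degree `N` from one variety in degree `N`. -/
lemma vamplify (h : IsVar D) (n : ℕ) (f : ℕ → V) (N : ℤ) :
    ∃ U : V, ∀ᶠ p in cofinite, OrdAt D p U N → ∀ i < n, OrdAt D p (f i) N := by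
  let b : ℕ := 1 + ∑ i ∈ Finset.range n, (D.hodge (f i)).card
  have hb : ∀ i < n, (D.hodge (f i)).card < b := by
    intro i hi
    have : (D.hodge (f i)).card ≤ ∑ i ∈ Finset.range n, (D.hodge (f i)).card :=
      Finset.single_le_sum (f := fun i => (D.hodge (f i)).card) (fun _ _ => Nat.zero_le _)
        (Finset.mem_range.mpr hi)
    omega
  refine ⟨∑ i ∈ Finset.range n, b ^ i • f i, ?_⟩
  have h1 : ∀ᶠ p in cofinite, ∀ i ∈ Finset.range n,
      D.newt p (b ^ i • f i) = b ^ i • D.newt p (f i) ∧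
        (D.newt p (f i)).card = (D.hodge (f i)).card := by
    rw [Filter.eventually_all_finset]
    intro i _
    exact (vnewt_nsmul h _ _).and (h.card _)
  filter_upwards [h1, vnewt_sum h (Finset.range n) (fun i => b ^ i • f i)] with p h2 h3 h4 i hi
  refine amplify2 n b (fun i => deg N (D.newt p (f i))) (fun i => deg N (D.hodge (f i)))
    (fun i hi => ?_) (fun i hi => (card_deg_le _ _).trans_lt (hb i hi)) ?_ i hi
  · refine (card_deg_le _ _).trans_lt ?_
    rw [(h2 i (Finset.mem_range.mpr hi)).2]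
    exact hb i hi
  · have h5 : deg N (D.newt p (∑ i ∈ Finset.range n, b ^ i • f i)) =
      deg N (D.hodge (∑ i ∈ Finset.range n, b ^ i • f i)) := h4
    rw [h3, vhodge_sum h, deg_sum, deg_sum] at h5
    have h6 : ∑ i ∈ Finset.range n, b ^ i • deg N (D.newt p (f i)) =
        ∑ i ∈ Finset.range n, deg N (D.newt p (b ^ i • f i)) :=
      Finset.sum_congr rfl fun i hi => by rw [(h2 i hi).1, deg_nsmul]
    rw [h6, h5]
    exact Finset.sum_congr rfl fun i hi => by rw [vhodge_nsmul h, deg_nsmul]

/-- The descent in the degree. -/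
lemma vpeel (h : IsVar D) (X : V) (n : ℤ) :
    ∀ᶠ p in cofinite, OrdAt D p X n → OrdAt D p (X * D.line) n → OrdAt D p X (n - 2) := by
  filter_upwards [h.mul X D.line, h.newt_line] with p h1 h2 h3 h4
  rw [OrdAt, h1, h2, h.hodge_mul, h.hodge_line] at h4
  exact peel h3 h4

lemma vpeels (h : IsVar D) (X : V) (N : ℤ) (K : ℕ) :
    ∀ᶠ p in cofinite, (∀ k ≤ K, OrdAt D p (X * D.line ^ k) N) →
      ∀ j k : ℕ, j + k ≤ K → OrdAt D p (X * D.line ^ k) (N - 2 * j) := by
  have h1 : ∀ᶠ p in cofinite, ∀ x ∈ Finset.range (K + 1) ×ˢ Finset.range (K + 1),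
      OrdAt D p (X * D.line ^ x.2) (N - 2 * x.1) →
      OrdAt D p (X * D.line ^ x.2 * D.line) (N - 2 * x.1) →
      OrdAt D p (X * D.line ^ x.2) (N - 2 * x.1 - 2) := by
    rw [Filter.eventually_all_finset]
    intro x _
    exact vpeel h _ _
  filter_upwards [h1] with p h2 h3 j
  induction j with
  | zero =>
    intro k hk
    have h4 : N - 2 * ((0 : ℕ) : ℤ) = N := by simp
    rw [h4]
    exact h3 k (by omega)
  | succ j ih =>
    intro k hk
    have h5 := h2 (j, k) (Finset.mem_product.mpr ⟨Finset.mem_range.mpr (by omega),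
      Finset.mem_range.mpr (by omega)⟩) (ih k (by omega)) (by
        have h6 := ih (k + 1) (by omega)
        rwa [pow_succ, ← mul_assoc] at h6)
    have h7 : N - 2 * ((j + 1 : ℕ) : ℤ) = N - 2 * (j : ℤ) - 2 := by
      push_cast
      ring
    rw [h7]
    exact h5

/-- Finitely many varieties over `ℚ` in all degrees at the same time, from even degrees. -/
theorem vsimultaneous (h : IsVar D)
    (h0 : ∀ (X : V) (n : ℤ), Even n → {p | OrdAt D p X n}.Infinite)
    (s : Finset V) : {p | ∀ X ∈ s, OrdAll D p X}.Infinite := by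
  classical
  -- the varieties and their squares
  let s' : Finset V := s ∪ s.image fun X => X * X
  have hdeg : ∃ K : ℕ, ∀ X ∈ s', (∀ n : ℤ, (n < 0 ∨ 2 * K < n) → deg n (D.hodge X) = 0) ∧
      ∀ᶠ p in cofinite, ∀ n : ℤ, (n < 0 ∨ 2 * K < n) → deg n (D.newt p X) = 0 := by
    choose d hd using h.degrees
    refine ⟨∑ X ∈ s', d X, fun X hX => ?_⟩
    have h1 : d X ≤ ∑ X ∈ s', d X := Finset.single_le_sum (fun _ _ => Nat.zero_le _) hX
    have h2 : ∀ n : ℤ, (n < 0 ∨ 2 * ((∑ X ∈ s', d X : ℕ) : ℤ) < n) → (n < 0 ∨ 2 * (d X : ℤ) < n) := by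
      intro n hn
      have : (d X : ℤ) ≤ ((∑ X ∈ s', d X : ℕ) : ℤ) := by exact_mod_cast h1
      rcases hn with hn | hn
      · exact Or.inl hn
      · exact Or.inr (by omega)
    refine ⟨fun n hn => (hd X n (h2 n hn)).1, ?_⟩
    filter_upwards [(hd X (-1) (Or.inl (by norm_num))).2] with p h3 n hn
    exact h3 n (h2 n hn)
  obtain ⟨K, hK⟩ := hdeg
  let L : List (V × ℕ) := (s' ×ˢ Finset.range (K + 1)).toList
  let g : ℕ → V := fun i => match L[i]? with
    | some x => x.1 * D.line ^ x.2
    | none => 0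
  obtain ⟨U, hU⟩ := vamplify h L.length g (2 * K)
  have hinf : ∀ {A B : Nat.Primes → Prop}, {p | A p}.Infinite → (∀ᶠ p in cofinite, A p → B p) →
      {p | B p}.Infinite := by
    intro A B hA h
    rw [Filter.eventually_cofinite] at h
    refine (hA.sdiff h).mono ?_
    rintro p ⟨h1, h2⟩
    by_contra h3
    exact h2 fun h4 => h3 (h4 h1)
  refine hinf (h0 U (2 * K) (even_two_mul _)) ?_
  have h1 : ∀ᶠ p in cofinite, ∀ X ∈ s', (∀ k ≤ K, OrdAt D p (X * D.line ^ k) (2 * K)) →
      ∀ j k : ℕ, j + k ≤ K → OrdAt D p (X * D.line ^ k) (2 * K - 2 * j) := by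
    rw [Filter.eventually_all_finset]
    intro X _
    exact vpeels h X _ K
  have h2 : ∀ᶠ p in cofinite, ∀ X ∈ s', ∀ n : ℤ, (n < 0 ∨ 2 * K < n) →
      deg n (D.newt p X) = 0 := by
    rw [Filter.eventually_all_finset]
    intro X hX
    exact (hK X hX).2
  have h3 : ∀ᶠ p in cofinite, ∀ X ∈ s, D.newt p (X * X) = cnv (D.newt p X) (D.newt p X) := by
    rw [Filter.eventually_all_finset]
    intro X _
    exact h.mul X X
  filter_upwards [hU, h1, h2, h3] with p h4 h5 h6 h7 h8
  have h9 : ∀ X ∈ s', ∀ k ≤ K, OrdAt D p (X * D.line ^ k) (2 * K) := by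
    intro X hX k hk
    have h10 : (X, k) ∈ L := Finset.mem_toList.mpr
      (Finset.mem_product.mpr ⟨hX, Finset.mem_range.mpr (by omega)⟩)
    obtain ⟨i, hi, h11⟩ := List.getElem_of_mem h10
    have h12 := h4 h8 i hi
    have h13 : L[i]? = some L[i] := List.getElem?_eq_getElem hi
    have h14 : g i = L[i].1 * D.line ^ L[i].2 := by simp only [g, h13]
    rw [h14, h11] at h12
    exact h12
  have h10 : ∀ X ∈ s', ev (D.newt p X) = ev (D.hodge X) := by
    intro X hX
    refine ev_ext fun n hn => ?_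
    by_cases hc : n < 0 ∨ 2 * K < n
    · rw [h6 X hX n hc, (hK X hX).1 n hc]
    · push Not at hc
      obtain ⟨m, hm⟩ := hn
      have h11 := h5 X hX (h9 X hX) (K - m.toNat) 0 (by omega)
      have h12 : 2 * (K : ℤ) - 2 * ((K - m.toNat : ℕ) : ℤ) = n := by omega
      rw [h12, pow_zero, mul_one] at h11
      exact h11
  intro X hX
  have h11 := h10 X (Finset.mem_union_left _ hX)
  have h12 := h10 (X * X) (Finset.mem_union_right _ (Finset.mem_image_of_mem _ hX))
  rw [h7 X hX, h.hodge_mul] at h12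
  exact od_of_ev h11 h12

/-- Q1 over all number fields. -/
def Q1all (D : VarData V W) : Prop :=
  ∀ (Y : W) (n : ℤ),
    {x : Σ p : Nat.Primes, D.place Y p | deg n (D.newtW Y x.1 x.2) = deg n (D.hodgeW Y)}.Infinite

/-- Q1 over `ℚ` in even degrees. -/
def Q1even (D : VarData V W) : Prop :=
  ∀ (X : V) (n : ℤ), Even n → {p | OrdAt D p X n}.Infinite

/-- There is one infinite set of prime numbers for all varieties over all number fields. -/
def Universal (D : VarData V W) : Prop :=
  ∃ P₀ : Set Nat.Primes, P₀.Infinite ∧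
    ∀ Y : W, (P₀ \ {p | ∀ P : D.place Y p, D.newtW Y p P = D.hodgeW Y}).Finite

/-- The equivalence. -/
theorem vtfae (h : IsVar D) (hV : Countable V) :
    List.TFAE [
      Q1all D,
      Q1even D,
      ∀ s : Finset V, {p | ∀ X ∈ s, OrdAll D p X}.Infinite,
      Universal D] := by
  tfae_have 1 → 2 := by
    intro h1 X n _
    have h2 := h1 (D.incl X) n
    have hinj : Set.InjOn (fun x : Σ p : Nat.Primes, D.place (D.incl X) p => x.1) Set.univ := by
      rintro ⟨p, P⟩ _ ⟨p', P'⟩ _ (rfl : p = p')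
      have := h.incl_place X p
      rw [Subsingleton.elim P P']
    refine (h2.image (hinj.mono (Set.subset_univ _))).mono ?_
    rintro _ ⟨⟨p, P⟩, h3, rfl⟩
    have h4 : deg n (D.newtW (D.incl X) p P) = deg n (D.hodgeW (D.incl X)) := h3
    rw [h.incl_newt, h.incl_hodge] at h4
    exact h4
  tfae_have 2 → 3 := fun h0 s => vsimultaneous h h0 s
  tfae_have 3 → 4 := by
    intro h1
    classical
    obtain ⟨e, he⟩ := exists_surjective_nat V
    obtain ⟨P₀, h2, h3⟩ := pseudo
      (fun n => {p | ∀ X ∈ (Finset.range (n + 1)).image e, OrdAll D p X})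
      (fun n => h1 _) (fun m n hmn p hp X hX => hp X
        (Finset.image_subset_image (Finset.range_mono (by omega)) hX))
    refine ⟨P₀, h2, fun Y => ?_⟩
    obtain ⟨n, hn⟩ := he (D.down Y)
    have h4 : ∀ᶠ p in cofinite, OrdAll D p (D.down Y) →
        ∀ P : D.place Y p, D.newtW Y p P = D.hodgeW Y := by
      filter_upwards [h.down_newt Y, h.down_hodge Y, h.above Y] with p h5 h6 h7 h8 P
      rw [OrdAll, h5, h6] at h8
      exact all_of_mean Finset.univ (D.res Y p) (fun P _ => h.res_pos Y p P) (D.newtW Y p)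
        (D.hodgeW Y) (fun P _ => h7 P) h8 P (Finset.mem_univ P)
    rw [Filter.eventually_cofinite] at h4
    refine ((h3 n).union h4).subset ?_
    rintro p ⟨h5, h6⟩
    by_cases h7 : OrdAll D p (D.down Y)
    · exact Or.inr fun h8 => h6 (h8 h7)
    · refine Or.inl ⟨h5, fun h8 => h7 ?_⟩
      rw [← hn]
      exact h8 _ (Finset.mem_image_of_mem _ (Finset.self_mem_range_succ n))
  tfae_have 4 → 1 := by
    rintro ⟨P₀, h2, h3⟩ Y n
    have h4 := h2.sdiff (h3 Y)
    choose P hP using fun p => (⟨Classical.choice (h.nonempty Y p), trivial⟩ :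
      ∃ _ : D.place Y p, True)
    have hinj : Set.InjOn (fun p => (⟨p, P p⟩ : Σ p : Nat.Primes, D.place Y p)) Set.univ := by
      intro p _ p' _ hpp
      exact congrArg Sigma.fst hpp
    refine (h4.image (hinj.mono (Set.subset_univ _))).mono ?_
    rintro _ ⟨p, ⟨h5, h6⟩, rfl⟩
    have h7 : ∀ P : D.place Y p, D.newtW Y p P = D.hodgeW Y := by
      by_contra h8
      exact h6 ⟨h5, h8⟩
    change deg n (D.newtW Y p (P p)) = deg n (D.hodgeW Y)
    rw [h7]
  tfae_finish

end Pool.Agent.Q148.UP
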